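import Mathlib

set_option autoImplicit false

/-!
A monomial germ of `ℂ³` whose orders of vanishing satisfy no integral linear recursion.
-/

namespace Pool.Agent.K6.H12.Germ

/-- the monomial map `(x, y, z) ↦ (y³, y z, x⁶)` -/
def F (z : Fin 3 → ℂ) : Fin 3 → ℂ := ![z 1 ^ 3, z 1 * z 2, z 0 ^ 6]

/-- the orders of the components of the iterates -/
def st : ℕ → ℕ × ℕ × ℕ
  | 0 => (1, 1, 1)
  | k + 1 => (3 * (st k).2.1, (st k).2.1 + (st k).2.2, 6 * (st k).1)

def a (k : ℕ) : ℕ := (st k).1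
def b (k : ℕ) : ℕ := (st k).2.1
def c (k : ℕ) : ℕ := (st k).2.2

lemma a_succ (k : ℕ) : a (k + 1) = 3 * b k := rfl
lemma b_succ (k : ℕ) : b (k + 1) = b k + c k := rfl
lemma c_succ (k : ℕ) : c (k + 1) = 6 * a k := rfl

lemma pos (k : ℕ) : 0 < a k ∧ 0 < b k ∧ 0 < c k := by
  induction k with
  | zero => simp [a, b, c, st]
  | succ k ih => rw [a_succ, b_succ, c_succ]; omega

lemma inv (k : ℕ) : b k ≤ 2 * a k ∧ c k ≤ 5 * b k ∧ 6 * a k ≤ 5 * b k + 5 * c k := by
  induction k with
  | zero => simp [a, b, c, st]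
  | succ k ih =>
    have := pos k
    rw [a_succ, b_succ, c_succ]; omega

lemma a_le_c (k : ℕ) : a k ≤ c k := by
  cases k with
  | zero => simp [a, c, st]
  | succ k => rw [a_succ, c_succ]; have := inv k; omega

/-- the difference of the first two orders -/
def w (k : ℕ) : ℤ := (a k : ℤ) - b k

lemma w_rec (k : ℕ) : w (k + 2) = -2 * w (k + 1) - 6 * w k := by
  unfold w
  rw [a_succ (k + 1), b_succ (k + 1), a_succ k, b_succ k, c_succ k]
  push_cast
  ring

lemma w_zero : w 0 = 0 := by simp [w, a, b, st]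
lemma w_one : w 1 = 1 := by simp [w, a, b, st]

lemma a_mod (k : ℕ) : a (k + 1) % 3 = 0 := by rw [a_succ]; omega

lemma b_mod (k : ℕ) : b (k + 1) % 3 = 2 := by
  induction k with
  | zero => simp [b, st]
  | succ k ih =>
    have : c (k + 1) % 3 = 0 := by rw [c_succ]; omega
    rw [b_succ (k + 1)]; omega

lemma w_ne (k : ℕ) : w (k + 1) ≠ 0 := by
  unfold w
  have h1 := a_mod k
  have h2 := b_mod k
  omega

/-- the order of the iterate -/
def m (k : ℕ) : ℕ := min (a k) (b k)

lemma m_mod_iff (k : ℕ) : m (k + 1) % 3 = 0 ↔ w (k + 1) < 0 := by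
  have h1 := a_mod k
  have h2 := b_mod k
  unfold m w
  omega

/-- the multiplier -/
noncomputable def al : ℂ := ⟨-1, Real.sqrt 5⟩

lemma al_sq : al ^ 2 = -2 * al - 6 := by
  apply Complex.ext
  · simp [al, pow_two]
    norm_num
  · simp [al, pow_two]
    ring

lemma im_al (k : ℕ) : (al ^ k).im = Real.sqrt 5 * w k := by
  induction k using Nat.strong_induction_on with
  | _ k ih =>
    match k with
    | 0 => simp [w_zero]
    | 1 => simp [w_one, al]
    | k + 2 =>
      have h1 := ih k (by omega)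
      have h2 := ih (k + 1) (by omega)
      have h3 : al ^ (k + 2) = -2 * al ^ (k + 1) - 6 * al ^ k := by
        rw [pow_add, al_sq]; ring
      rw [h3, w_rec]
      have h4 : (-2 * al ^ (k + 1) - 6 * al ^ k).im = -2 * (al ^ (k + 1)).im - 6 * (al ^ k).im := by
        simp
      rw [h4, h1, h2]
      push_cast
      ring

/-- A sequence `Im (β γ ^ j)` with `γ` not real is not always positive. -/
lemma not_pos (β γ : ℂ) (hγ : γ.im ≠ 0) : ¬ ∀ j : ℕ, 0 < (β * γ ^ j).im := by
  intro h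
  set v : ℕ → ℝ := fun j => (β * γ ^ j).im with hv
  have hrec : ∀ j, v (j + 2) = 2 * γ.re * v (j + 1) - (γ.re ^ 2 + γ.im ^ 2) * v j := by
    intro j
    have h1 : γ ^ 2 = (2 * γ.re : ℝ) * γ - ((γ.re ^ 2 + γ.im ^ 2 : ℝ) : ℂ) := by
      apply Complex.ext
      · simp [pow_two]; ring
      · simp [pow_two]; ring
    have h2 : β * γ ^ (j + 2) = (2 * γ.re : ℝ) * (β * γ ^ (j + 1)) -
        ((γ.re ^ 2 + γ.im ^ 2 : ℝ) : ℂ) * (β * γ ^ j) := by
      rw [pow_add, h1]; ring
    simp only [hv]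
    rw [h2, Complex.sub_im, Complex.im_ofReal_mul, Complex.im_ofReal_mul]
  have hpos : ∀ j, 0 < v j := h
  set r : ℕ → ℝ := fun j => v (j + 1) / v j with hr
  have hrpos : ∀ j, 0 < r j := fun j => div_pos (hpos _) (hpos _)
  have hstep : ∀ j, r (j + 1) * r j = 2 * γ.re * r j - (γ.re ^ 2 + γ.im ^ 2) := by
    intro j
    have h1 := (hpos j).ne'
    have h2 := (hpos (j + 1)).ne'
    simp only [hr]
    rw [show j + 1 + 1 = j + 2 from rfl, hrec j]
    field_simp
  have hdec : ∀ j, r (j + 1) ≤ r j ∧ γ.im ^ 2 ≤ (r j - r (j + 1)) * r j := by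
    intro j
    have h1 := hstep j
    have h2 := hrpos j
    have h3 : γ.im ^ 2 ≤ (r j - r (j + 1)) * r j := by
      nlinarith [sq_nonneg (r j - γ.re)]
    refine ⟨?_, h3⟩
    by_contra hcon
    push Not at hcon
    nlinarith [sq_nonneg γ.im]
  have hle : ∀ j, r j ≤ r 0 := by
    intro j
    induction j with
    | zero => exact le_rfl
    | succ j ih => exact (hdec j).1.trans ih
  have hlin : ∀ j : ℕ, (j : ℝ) * γ.im ^ 2 ≤ (r 0 - r j) * r 0 := by
    intro j
    induction j with
    | zero => simp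
    | succ j ih =>
      have h1 := hdec j
      have h2 := hle j
      have h3 : (r j - r (j + 1)) * r j ≤ (r j - r (j + 1)) * r 0 :=
        mul_le_mul_of_nonneg_left h2 (by linarith [h1.1])
      push_cast
      nlinarith [h1.2]
  have hi : 0 < γ.im ^ 2 := by positivity
  obtain ⟨N, hN⟩ := exists_nat_gt ((r 0) ^ 2 / γ.im ^ 2)
  have h1 := hlin N
  rw [div_lt_iff₀ hi] at hN
  nlinarith [hrpos N, hrpos 0]

lemma w_shift (k P j : ℕ) : Real.sqrt 5 * w (k + P * j) = (al ^ k * (al ^ P) ^ j).im := by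
  rw [← pow_mul, ← pow_add, im_al]

lemma sqrt5_pos : 0 < Real.sqrt 5 := Real.sqrt_pos.2 (by norm_num)

/-- the sign of `w` is not periodic -/
lemma not_periodic (K P : ℕ) (hP : 0 < P) (h : ∀ k, K ≤ k → (w (k + P) < 0 ↔ w k < 0)) : False := by
  have hP' : ∃ Q, P = Q + 1 := ⟨P - 1, by omega⟩
  obtain ⟨Q, hQ⟩ := hP'
  have him : (al ^ P).im ≠ 0 := by
    rw [im_al, hQ]
    exact mul_ne_zero sqrt5_pos.ne' (by exact_mod_cast w_ne Q)
  have hall : ∀ j, (w (K + 1 + P * j) < 0 ↔ w (K + 1) < 0) := by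
    intro j
    induction j with
    | zero => simp
    | succ j ih =>
      rw [← ih, show K + 1 + P * (j + 1) = (K + 1 + P * j) + P by ring]
      exact h _ (by have := Nat.zero_le (P * j); omega)
  by_cases hs : w (K + 1) < 0
  · refine not_pos (-(al ^ (K + 1))) (al ^ P) him fun j => ?_
    have h1 := (hall j).2 hs
    have h2 := w_shift (K + 1) P j
    have h3 : (-(al ^ (K + 1)) * (al ^ P) ^ j).im = -(al ^ (K + 1) * (al ^ P) ^ j).im := by
      rw [neg_mul, Complex.neg_im]
    rw [h3, ← h2]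
    have h4 : ((w (K + 1 + P * j) : ℤ) : ℝ) < 0 := by exact_mod_cast h1
    nlinarith [sqrt5_pos]
  · refine not_pos (al ^ (K + 1)) (al ^ P) him fun j => ?_
    have h1 : ¬ w (K + 1 + P * j) < 0 := fun hc => hs ((hall j).1 hc)
    have h0 : w (K + 1 + P * j) ≠ 0 := by
      have := w_ne (K + P * j)
      rwa [show K + P * j + 1 = K + 1 + P * j by ring] at this
    have h2 := w_shift (K + 1) P j
    rw [← h2]
    have h4 : (0 : ℝ) < ((w (K + 1 + P * j) : ℤ) : ℝ) := by
      have : 0 < w (K + 1 + P * j) := by omega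
      exact_mod_cast this
    exact mul_pos sqrt5_pos h4

/-- integral linear recursions are eventually periodic modulo `3` -/
lemma eventually_periodic (u : ℕ → ℤ) (d : ℕ) (e : Fin d → ℤ) (K : ℕ)
    (h : ∀ k, K ≤ k → u (k + d) = ∑ i : Fin d, e i * u (k + (i : ℕ))) :
    ∃ K' P : ℕ, 0 < P ∧ K ≤ K' ∧ ∀ k, K' ≤ k → u (k + P) % 3 = u k % 3 := by
  classical
  set s : ℕ → (Fin d → ZMod 3) := fun k i => (u (k + (i : ℕ)) : ZMod 3) with hs
  -- pigeonhole
  obtain ⟨x, y, hxy, hsxy⟩ := Finite.exists_ne_map_eq_of_infinite (fun k : ℕ => s (K + k))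
  have key : ∀ p q : ℕ, K ≤ p → K ≤ q → s p = s q → ∀ j, s (p + j) = s (q + j) := by
    intro p q hp hq hpq j
    induction j with
    | zero => simpa using hpq
    | succ j ih =>
      funext i
      by_cases hi : (i : ℕ) + 1 < d
      · have h1 := congrFun ih ⟨(i : ℕ) + 1, hi⟩
        simp only [hs] at h1 ⊢
        rw [show p + (j + 1) + (i : ℕ) = p + j + ((i : ℕ) + 1) by ring,
          show q + (j + 1) + (i : ℕ) = q + j + ((i : ℕ) + 1) by ring]
        exact h1
      · have hid : (i : ℕ) + 1 = d := by have := i.2; omega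
        simp only [hs]
        rw [show p + (j + 1) + (i : ℕ) = p + j + d by omega,
          show q + (j + 1) + (i : ℕ) = q + j + d by omega,
          h (p + j) (by omega), h (q + j) (by omega)]
        push_cast
        refine Finset.sum_congr rfl fun l _ => ?_
        have h1 := congrFun ih l
        simp only [hs] at h1
        rw [h1]
  have main : ∀ x y : ℕ, x < y → s (K + x) = s (K + y) →
      ∃ K' P : ℕ, 0 < P ∧ K ≤ K' ∧ ∀ k, K' ≤ k → u (k + P) % 3 = u k % 3 := by
    intro x y hlt hxy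
    refine ⟨K + x + d, y - x, by omega, by omega, fun k hk => ?_⟩
    rcases Nat.eq_zero_or_pos d with hd | hd
    · subst hd
      have h1 := h k (by omega)
      have h2 := h (k + (y - x)) (by omega)
      simp at h1 h2
      rw [h1, h2]
    · have h1 := key (K + x) (K + y) (by omega) (by omega) hxy (k - (K + x))
      have h2 := congrFun h1 ⟨0, hd⟩
      simp only [hs, add_zero] at h2
      rw [show K + x + (k - (K + x)) = k by omega,
        show K + y + (k - (K + x)) = k + (y - x) by omega] at h2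
      have h3 := (ZMod.intCast_eq_intCast_iff' _ _ 3).1 h2
      exact_mod_cast h3.symm
  rcases lt_or_gt_of_ne hxy with hlt | hlt
  · exact main x y hlt hsxy
  · exact main y x hlt hsxy.symm

/-- the sequence `m` satisfies no integral linear recursion -/
theorem m_not_recursive (d : ℕ) (e : Fin d → ℤ) (K : ℕ)
    (h : ∀ k, K ≤ k → ((m (k + d) : ℕ) : ℤ) = ∑ i : Fin d, e i * ((m (k + (i : ℕ)) : ℕ) : ℤ)) :
    False := by
  obtain ⟨K', P, hP, hK, hper⟩ := eventually_periodic (fun k => ((m k : ℕ) : ℤ)) d e K h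
  refine not_periodic (K' + 1) P hP fun k hk => ?_
  obtain ⟨j, rfl⟩ : ∃ j, k = j + 1 := ⟨k - 1, by omega⟩
  have h1 := hper (j + 1) (by omega)
  rw [show j + 1 + P = (j + P) + 1 by ring] at h1 ⊢
  rw [← m_mod_iff (j + P), ← m_mod_iff j]
  omega

end Pool.Agent.K6.H12.Germ
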