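import Pool.Agent.K6.H12.Germ

set_option autoImplicit false

namespace Pool.Agent.K6.H12.Germ

/-- the order of the `i`-th component of the iterate -/
def u (k : ℕ) : Fin 3 → ℕ := ![a k, b k, c k]

lemma F_contDiff (n : WithTop ℕ∞) : ContDiff ℂ n F := by
  rw [contDiff_pi]
  intro i
  fin_cases i
  · exact (contDiff_apply ℂ ℂ 1).pow 3
  · exact (contDiff_apply ℂ ℂ 1).mul (contDiff_apply ℂ ℂ 2)
  · exact (contDiff_apply ℂ ℂ 0).pow 6

lemma iter_contDiff (n : WithTop ℕ∞) (k : ℕ) : ContDiff ℂ n (F^[k]) := by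
  induction k with
  | zero => exact contDiff_id
  | succ k ih => rw [Function.iterate_succ']; exact (F_contDiff n).comp ih

/-- homogeneity -/
lemma iter_smul (k : ℕ) (t : ℂ) (z : Fin 3 → ℂ) :
    F^[k] (t • z) = fun i => t ^ u k i * F^[k] z i := by
  induction k with
  | zero =>
    funext i
    fin_cases i <;> simp [u, a, b, c, st]
  | succ k ih =>
    rw [Function.iterate_succ_apply', ih, Function.iterate_succ_apply']
    funext i
    fin_cases i
    · simp [F, u, a_succ]; ring
    · simp [F, u, b_succ]; ring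
    · simp [F, u, c_succ]; ring

lemma iter_one (k : ℕ) : F^[k] (fun _ => 1) = fun _ => 1 := by
  induction k with
  | zero => rfl
  | succ k ih =>
    rw [Function.iterate_succ_apply', ih]
    funext i
    fin_cases i <;> simp [F]

/-- the derivatives of a component vanish except in one order -/
lemma deriv_eq_zero (k m : ℕ) (i : Fin 3) (hm : m ≠ u k i) :
    iteratedFDeriv ℂ m (fun z => F^[k] z i) 0 = 0 := by
  have hcd : ContDiff ℂ m (fun z => F^[k] z i) := by
    have := iter_contDiff m k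
    rw [contDiff_pi] at this
    exact this i
  have h1 := iteratedFDeriv_comp_const_smul (𝕜 := ℂ) (i := m) (2 : ℂ) hcd
  have h2 : (fun z => F^[k] ((2 : ℂ) • z) i) = (2 : ℂ) ^ u k i • (fun z => F^[k] z i) := by
    funext z
    rw [iter_smul]
    simp
  rw [h2] at h1
  have h3 := congrFun h1 0
  rw [iteratedFDeriv_const_smul_apply (hcd.contDiffAt), smul_zero] at h3
  have h4 : ((2 : ℂ) ^ u k i - 2 ^ m) • iteratedFDeriv ℂ m (fun z => F^[k] z i) 0 = 0 := by
    rw [sub_smul, h3, sub_self]
  rcases smul_eq_zero.1 h4 with h5 | h5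
  · exfalso
    rw [sub_eq_zero] at h5
    have h6 : ((2 ^ u k i : ℕ) : ℂ) = ((2 ^ m : ℕ) : ℂ) := by push_cast; exact h5
    exact hm (Nat.pow_right_injective le_rfl (Nat.cast_injective h6)).symm
  · exact h5

lemma deriv_ne_zero (k : ℕ) (i : Fin 3) :
    iteratedFDeriv ℂ (u k i) (fun z => F^[k] z i) 0 ≠ 0 := by
  intro h0
  have hcd : ContDiff ℂ (u k i) (fun z => F^[k] z i) := by
    have := iter_contDiff (u k i) k
    rw [contDiff_pi] at this
    exact this i
  set g : ℂ →L[ℂ] (Fin 3 → ℂ) := (ContinuousLinearMap.id ℂ ℂ).smulRight (fun _ => (1 : ℂ)) with hg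
  have h1 := g.iteratedFDeriv_comp_right hcd (0 : ℂ) (i := u k i) le_rfl
  rw [map_zero, h0] at h1
  have h2 : (fun z => F^[k] z i) ∘ g = fun t : ℂ => t ^ u k i := by
    funext t
    have : g t = t • (fun _ => (1 : ℂ)) := by rw [hg]; rfl
    simp only [Function.comp_apply]
    rw [this, iter_smul, iter_one]
    simp
  rw [h2] at h1
  have h3 : iteratedDeriv (u k i) (fun t : ℂ => t ^ u k i) 0 = 0 := by
    rw [iteratedDeriv_eq_iteratedFDeriv, h1]
    rfl
  rw [iteratedDeriv_fun_pow_zero, if_pos rfl] at h3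
  exact Nat.factorial_ne_zero (u k i) (by exact_mod_cast h3)

lemma comp_eq (k m : ℕ) (i : Fin 3) :
    iteratedFDeriv ℂ m (fun z => F^[k] z i) 0 =
      (ContinuousLinearMap.proj (R := ℂ) (φ := fun _ : Fin 3 => ℂ) i).compContinuousMultilinearMap
        (iteratedFDeriv ℂ m (F^[k]) 0) := by
  rw [← ContinuousLinearMap.iteratedFDeriv_comp_left _ (iter_contDiff m k).contDiffAt le_rfl]
  rfl

lemma order_eq (k : ℕ) : sInf {n : ℕ | iteratedFDeriv ℂ n (F^[k]) 0 ≠ 0} = m k := by
  apply le_antisymm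
  · apply Nat.sInf_le
    show iteratedFDeriv ℂ (m k) (F^[k]) 0 ≠ 0
    intro h0
    rcases min_choice (a k) (b k) with h | h
    · refine deriv_ne_zero k 0 ?_
      have h1 : u k 0 = m k := by simp [u, m, h]
      rw [h1, comp_eq, h0]
      rfl
    · refine deriv_ne_zero k 1 ?_
      have h1 : u k 1 = m k := by simp [u, m, h]
      rw [h1, comp_eq, h0]
      rfl
  · apply le_csInf
    · refine ⟨m k, ?_⟩
      intro h0
      rcases min_choice (a k) (b k) with h | h
      · refine deriv_ne_zero k 0 ?_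
        have h1 : u k 0 = m k := by simp [u, m, h]
        rw [h1, comp_eq, h0]
        rfl
      · refine deriv_ne_zero k 1 ?_
        have h1 : u k 1 = m k := by simp [u, m, h]
        rw [h1, comp_eq, h0]
        rfl
    · intro n hn
      by_contra hlt
      push Not at hlt
      apply hn
      ext v i
      have h1 : n ≠ u k i := by
        have h2 := a_le_c k
        have h3 : n < a k := lt_of_lt_of_le hlt (min_le_left _ _)
        have h4 : n < b k := lt_of_lt_of_le hlt (min_le_right _ _)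
        fin_cases i
        · simp [u]; omega
        · simp [u]; omega
        · simp [u]; omega
      have h5 := deriv_eq_zero k n i h1
      rw [comp_eq] at h5
      have h6 := congrArg (fun q => q v) h5
      simpa using h6

/-- the derivative -/
lemma F_deriv (z v : Fin 3 → ℂ) :
    fderiv ℂ F z v = ![3 * z 1 ^ 2 * v 1, v 1 * z 2 + z 1 * v 2, 6 * z 0 ^ 5 * v 0] := by
  have hd : DifferentiableAt ℂ F z := (F_contDiff 1).differentiable (by simp) z
  have h1 : ∀ i, fderiv ℂ F z v i = fderiv ℂ (fun z => F z i) z v := by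
    intro i
    have h0 := (ContinuousLinearMap.proj (R := ℂ) (φ := fun _ : Fin 3 => ℂ) i).hasFDerivAt.comp z
      hd.hasFDerivAt
    have h0' : fderiv ℂ (fun z => F z i) z =
      (ContinuousLinearMap.proj (R := ℂ) (φ := fun _ : Fin 3 => ℂ) i).comp (fderiv ℂ F z) :=
      h0.fderiv
    rw [h0']
    rfl
  have hp : ∀ i : Fin 3, HasFDerivAt (fun z : Fin 3 → ℂ => z i)
      (ContinuousLinearMap.proj (R := ℂ) (φ := fun _ : Fin 3 => ℂ) i) z :=
    fun i => (ContinuousLinearMap.proj (R := ℂ) (φ := fun _ : Fin 3 => ℂ) i).hasFDerivAt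
  funext i
  rw [h1]
  fin_cases i
  · have h2 := ((hp 1).pow 3).fderiv
    have h3 : (fun z : Fin 3 → ℂ => F z 0) = fun z => z 1 ^ 3 := by funext z; simp [F]
    show fderiv ℂ (fun z => F z 0) z v = _
    rw [h3, h2]
    simp
  · have h2 := ((hp 1).mul (hp 2)).fderiv
    have h3 : (fun z : Fin 3 → ℂ => F z 1) = fun z => z 1 * z 2 := by funext z; simp [F]
    show fderiv ℂ (fun z => F z 1) z v = _
    have h4 : fderiv ℂ (fun z : Fin 3 → ℂ => z 1 * z 2) z = _ := h2
    rw [h3, h4]
    simp
    ring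
  · have h2 := ((hp 0).pow 6).fderiv
    have h3 : (fun z : Fin 3 → ℂ => F z 2) = fun z => z 0 ^ 6 := by funext z; simp [F]
    show fderiv ℂ (fun z => F z 2) z v = _
    rw [h3, h2]
    simp

lemma F_zero : F 0 = 0 := by
  funext i
  fin_cases i <;> simp [F]

lemma det_zero : (fderiv ℂ F 0).det = 0 := by
  have h : fderiv ℂ F 0 = 0 := by
    ext v i
    rw [F_deriv]
    fin_cases i <;> simp
  rw [h]
  simp [ContinuousLinearMap.det]

lemma det_ne (ε : ℝ) (hε : 0 < ε) : ∃ z : Fin 3 → ℂ, ‖z‖ < ε ∧ (fderiv ℂ F z).det ≠ 0 := by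
  refine ⟨fun _ => ((ε / 2 : ℝ) : ℂ), ?_, ?_⟩
  · rw [pi_norm_const, Complex.norm_real, Real.norm_eq_abs, abs_of_pos (by positivity)]
    linarith
  · have hne : ((ε / 2 : ℝ) : ℂ) ≠ 0 := by
      exact_mod_cast (by positivity : (ε / 2) ≠ 0)
    set t : ℂ := ((ε / 2 : ℝ) : ℂ) with ht
    have hinj : Function.Injective (fderiv ℂ F (fun _ => t) : (Fin 3 → ℂ) →ₗ[ℂ] (Fin 3 → ℂ)) := by
      rw [injective_iff_map_eq_zero]
      intro v hv
      have hv' : fderiv ℂ F (fun _ => t) v = 0 := hv
      rw [F_deriv] at hv'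
      have e0 := congrFun hv' 0
      have e1 := congrFun hv' 1
      have e2 := congrFun hv' 2
      simp [hne] at e0 e1 e2
      funext i
      fin_cases i
      · exact e2
      · exact e0
      · rw [e0] at e1
        simpa [hne] using e1
    rw [ContinuousLinearMap.det]
    intro h0
    have := LinearMap.bot_lt_ker_of_det_eq_zero h0
    rw [LinearMap.ker_eq_bot.2 hinj] at this
    exact lt_irrefl _ this

end Pool.Agent.K6.H12.Germ
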